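import Pool.Agent.Helper6.LP.St

/-!
# Project LP (MP_5e9b96_nt), module GG8
-/

set_option autoImplicit false

noncomputable section

namespace Pool.Agent.Helper61.LP

open Finset
open Pool.Agent.Helper6.LP

private theorem pow_filter (Q : Finset ℕ) (p : ℕ → Prop) [DecidablePred p]
    [DecidablePred fun T : Finset ℕ => ∀ l ∈ T, p l] :
    (Q.filter p).powerset = Q.powerset.filter (fun T => ∀ l ∈ T, p l) := by
  ext T
  rw [mem_powerset, mem_filter, mem_powerset]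
  refine ⟨fun h => ⟨fun l hl => (mem_filter.1 (h hl)).1, fun l hl => (mem_filter.1 (h hl)).2⟩,
    fun h l hl => mem_filter.2 ⟨h.1 hl, h.2 l hl⟩⟩

/-- Module GG8. -/
theorem hGG8 : StGG8 := by
  intro Q I J Y D _ hI hT
  classical
  have h1 : ∀ j ∈ I, ∏ l ∈ Q.filter (fun l => l ∣ D j), (1 + 8 / (l : ℝ)) =
      ∑ T ∈ Q.powerset, if (∀ l ∈ T, l ∣ D j) then ∏ l ∈ T, (8 / (l : ℝ)) else 0 := by
    intro j _
    rw [Finset.prod_one_add, pow_filter, Finset.sum_filter]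
  rw [Finset.sum_congr rfl h1, Finset.sum_comm]
  have h2 : ∀ T ∈ Q.powerset,
      ∑ j ∈ I, (if (∀ l ∈ T, l ∣ D j) then ∏ l ∈ T, (8 / (l : ℝ)) else 0) ≤
      J * ∏ l ∈ T, (64 / (l : ℝ) ^ 2) +
        if (∀ l ∈ T, l ≤ Y) then ∏ l ∈ T, (64 / (l : ℝ)) else 0 := by
    intro T hTQ
    rw [Finset.mem_powerset] at hTQ
    have e : ∑ j ∈ I, (if (∀ l ∈ T, l ∣ D j) then ∏ l ∈ T, (8 / (l : ℝ)) else 0) =
        ((I.filter (fun j => ∀ l ∈ T, l ∣ D j)).card : ℝ) * ∏ l ∈ T, (8 / (l : ℝ)) := by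
      rw [← Finset.sum_filter, Finset.sum_const, nsmul_eq_mul]
    rw [e]
    have hpos : 0 ≤ ∏ l ∈ T, (8 / (l : ℝ)) := Finset.prod_nonneg fun l _ => by positivity
    have hpos2 : 0 ≤ ∏ l ∈ T, (64 / (l : ℝ) ^ 2) := Finset.prod_nonneg fun l _ => by positivity
    by_cases hY : ∀ l ∈ T, l ≤ Y
    · rw [if_pos hY]
      have h3 := mul_le_mul_of_nonneg_right (hT T hTQ) hpos
      refine h3.trans (le_of_eq ?_)
      have e1 : (8 : ℝ) ^ T.card * ∏ l ∈ T, (8 / (l : ℝ)) = ∏ l ∈ T, (64 / (l : ℝ)) := by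
        rw [← Finset.prod_const, ← Finset.prod_mul_distrib]
        refine Finset.prod_congr rfl fun l _ => by ring
      have e2 : (∏ l ∈ T, (64 / (l : ℝ))) / ∏ l ∈ T, (l : ℝ) = ∏ l ∈ T, (64 / (l : ℝ) ^ 2) := by
        rw [← Finset.prod_div_distrib]
        refine Finset.prod_congr rfl fun l _ => by rw [div_div, sq]
      calc 8 ^ T.card * ((J : ℝ) / ∏ l ∈ T, (l : ℝ) + 1) * ∏ l ∈ T, (8 / (l : ℝ)) =
            (8 ^ T.card * ∏ l ∈ T, (8 / (l : ℝ))) * ((J : ℝ) / ∏ l ∈ T, (l : ℝ) + 1) := by ring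
        _ = (∏ l ∈ T, (64 / (l : ℝ))) * ((J : ℝ) / ∏ l ∈ T, (l : ℝ) + 1) := by rw [e1]
        _ = J * ((∏ l ∈ T, (64 / (l : ℝ))) / ∏ l ∈ T, (l : ℝ)) + ∏ l ∈ T, (64 / (l : ℝ)) := by
          ring
        _ = _ := by rw [e2]
    · rw [if_neg hY, add_zero]
      have hz : (I.filter (fun j => ∀ l ∈ T, l ∣ D j)) = ∅ := by
        rw [Finset.filter_eq_empty_iff]
        intro j hj h
        apply hY
        intro l hl
        exact (Nat.le_of_dvd (hI j hj).1 (h l hl)).trans (hI j hj).2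
      rw [hz, Finset.card_empty, Nat.cast_zero, zero_mul]
      exact mul_nonneg (Nat.cast_nonneg _) hpos2
  refine (Finset.sum_le_sum h2).trans (le_of_eq ?_)
  rw [Finset.sum_add_distrib, ← Finset.mul_sum, ← Finset.sum_filter, ← pow_filter Q (fun l => l ≤ Y),
    ← Finset.prod_one_add, ← Finset.prod_one_add]

end Pool.Agent.Helper61.LP
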